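import Pool.Agent.W613.AX.Win0

/-!
# The window of the sum over `d`: conclusion

Part WIN of project AX.
-/

set_option autoImplicit false
set_option linter.all false

namespace Pool.Agent.W613.AX

open Finset Filter Topology Metric
open Pool.Agent.W711.HT Pool.Agent.W719.AX
open scoped Real

theorem small (κ : ℝ) (hκ : 0 < κ) (m : ℕ) :
    ∀ᶠ N : ℕ in atTop, (N : ℝ) * Real.exp (-κ * N) ≤ 1 / (N : ℝ) ^ m := by
  have h1 : |Real.exp (-κ)| < 1 := by
    rw [abs_of_pos (Real.exp_pos _)]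
    rw [← Real.exp_zero]
    exact Real.exp_lt_exp.2 (by linarith)
  have h2 := tendsto_pow_const_mul_const_pow_of_abs_lt_one (m + 1) h1
  filter_upwards [h2.eventually (gt_mem_nhds one_pos), eventually_gt_atTop 0] with N hN hN0
  have hN0' : (0 : ℝ) < N := by exact_mod_cast hN0
  rw [le_div_iff₀ (by positivity)]
  have e : Real.exp (-κ * N) = Real.exp (-κ) ^ N := by
    rw [← Real.exp_nat_mul]
    congr 1
    ring
  rw [e]
  calc (N : ℝ) * Real.exp (-κ) ^ N * (N : ℝ) ^ m = (N : ℝ) ^ (m + 1) * Real.exp (-κ) ^ N := by ring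
    _ ≤ 1 := hN.le

theorem small' (κ : ℝ) (hκ : 0 < κ) (m : ℕ) :
    ∀ᶠ N : ℕ in atTop, Real.exp (-κ * N) ≤ 1 / (N : ℝ) ^ m := by
  filter_upwards [small κ hκ m, eventually_gt_atTop 0] with N hN hN0
  have hN1 : (1 : ℝ) ≤ N := by exact_mod_cast hN0
  refine le_trans ?_ hN
  exact le_mul_of_one_le_left (Real.exp_pos _).le hN1

theorem exists_h (ρ c B : ℝ) (hρ : 0 < ρ) (hc : 0 < c) : ∃ h : ℝ, 0 < h ∧ h ≤ ρ / 16 ∧
    64 * B / ρ ^ 2 * h ≤ π ∧ 64 * B / ρ ^ 2 * h ^ 2 ≤ c / 4 * (ρ / 8) ^ 2 := by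
  have h1 : Tendsto (fun h : ℝ => 64 * B / ρ ^ 2 * h) (𝓝 0) (𝓝 (64 * B / ρ ^ 2 * 0)) :=
    tendsto_id.const_mul _
  have h2 : Tendsto (fun h : ℝ => 64 * B / ρ ^ 2 * h ^ 2) (𝓝 0) (𝓝 (64 * B / ρ ^ 2 * 0 ^ 2)) :=
    (tendsto_id.pow 2).const_mul _
  rw [mul_zero] at h1
  rw [zero_pow (by norm_num), mul_zero] at h2
  have hk : (0 : ℝ) < c / 4 * (ρ / 8) ^ 2 := by positivity
  have h3 : ∀ᶠ h : ℝ in 𝓝[>] 0, 64 * B / ρ ^ 2 * h < π :=
    (h1.mono_left nhdsWithin_le_nhds).eventually (gt_mem_nhds Real.pi_pos)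
  have h4 : ∀ᶠ h : ℝ in 𝓝[>] 0, 64 * B / ρ ^ 2 * h ^ 2 < c / 4 * (ρ / 8) ^ 2 :=
    (h2.mono_left nhdsWithin_le_nhds).eventually (gt_mem_nhds hk)
  have h5 : ∀ᶠ h : ℝ in 𝓝[>] 0, h < ρ / 16 :=
    nhdsWithin_le_nhds (gt_mem_nhds (by positivity))
  obtain ⟨h, ⟨ha, hb⟩, hd, he⟩ := ((h3.and h4).and (h5.and self_mem_nhdsWithin)).exists
  exact ⟨h, he, hd.le, ha.le, hb.le⟩

theorem win (hSI : S_SI) (hLX : S_LX) (_hBD : S_UXBD) (hEXP : S_UXEXP) : S_WIN := by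
  intro ρ c B hρ hρ' hc E S Θ δs w T hΘ hw hwb hT
  refine ⟨ρ / 2, by linarith, by linarith, ?_⟩
  obtain ⟨h, hh0, hh1, hh2, hh3⟩ := exists_h ρ c B hρ hc
  -- the Borel sum of the coefficients
  obtain ⟨κ, hY⟩ := borel (X := E × ℂ) w (S ×ˢ ball (1 / 4 : ℂ) ρ) (fun k => by
    obtain ⟨B', hB'⟩ := hwb k
    exact ⟨B', fun x hx => hB' x.1 hx.1 x.2 hx.2⟩)
  set Y : ℕ → E × ℂ → ℂ := fun N x => ∑ k ∈ range (κ N), w k x / (N : ℂ) ^ k with hYdef
  have hYd : ∀ N, ∀ p ∈ S, DifferentiableOn ℂ (fun z => Y N (p, z)) (ball (1 / 4) ρ) := by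
    intro N p hp
    rw [hYdef]
    refine DifferentiableOn.fun_sum fun k _ => ?_
    exact (hw k p hp).div_const _
  obtain ⟨b, hb, hb0⟩ := hEXP (E × ℂ) Y w _ hY
  have hbd : ∀ k, ∀ p ∈ S, DifferentiableOn ℂ (fun z => b k (p, z)) (ball (1 / 4) ρ) := by
    intro k p hp
    refine Pool.Agent.W303.AX.uxan (fun N z => Complex.exp (Y N (p, z))) (fun k z => b k (p, z))
      (ball (1 / 4) ρ) isOpen_ball (Eventually.of_forall fun N => (hYd N p hp).cexp) ?_ k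
    intro K
    obtain ⟨C, hC⟩ := hb K
    refine ⟨C, ?_⟩
    filter_upwards [hC] with N hN z hz
    exact hN (p, z) ⟨hp, hz⟩
  -- Laplace's method
  obtain ⟨δ', hδ'0, hδ'1, hL⟩ := hLX (ρ / 2) (2 * B) c (by linarith) hc
  set η := min δ' (ρ / 8) with hη
  have hη0 : 0 < η := lt_min hδ'0 (by linarith)
  have hη1 : η ≤ ρ / 8 := min_le_right _ _
  have hsh : ∀ p ∈ S, ∀ u ∈ ball (0 : ℂ) (ρ / 2), (δs p : ℂ) + u ∈ ball (1 / 4 : ℂ) ρ := by
    intro p hp u hu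
    rw [mem_ball, dist_zero_right] at hu
    rw [mem_ball, dist_eq_norm]
    have e : (δs p : ℂ) + u - 1 / 4 = ((δs p - 1 / 4 : ℝ) : ℂ) + u := by
      push_cast
      ring
    rw [e]
    refine (norm_add_le _ _).trans_lt ?_
    rw [Complex.norm_real, Real.norm_eq_abs]
    linarith [(hΘ p hp).2.2.1]
  have hmaps : ∀ p ∈ S, Set.MapsTo (fun u : ℂ => (δs p : ℂ) + u) (ball (0 : ℂ) (ρ / 2))
      (ball (1 / 4 : ℂ) ρ) := fun p hp u hu => hsh p hp u hu
  have hδin : ∀ p ∈ S, (δs p : ℂ) ∈ ball (1 / 4 : ℂ) ρ := by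
    intro p hp
    have := hsh p hp 0 (mem_ball_self (by linarith))
    rwa [add_zero] at this
  have hdq : ∀ p, deriv (fun u : ℂ => Θ p (δs p + u) - Θ p (δs p)) =
      fun u => deriv (Θ p) (δs p + u) := by
    intro p
    funext u
    rw [deriv_sub_const]
    exact deriv_comp_const_add _ _ _
  have hddq : ∀ p, deriv (deriv (fun u : ℂ => Θ p (δs p + u) - Θ p (δs p))) 0 =
      deriv (deriv (Θ p)) (δs p) := by
    intro p
    rw [hdq, deriv_comp_const_add, add_zero]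
  obtain ⟨A, hA, hA0⟩ := hL η hη0 (min_le_left _ _) E S
    (fun p u => Θ p (δs p + u) - Θ p (δs p)) (fun N x => Complex.exp (Y N (x.1, δs x.1 + x.2)))
    (fun k x => b k (x.1, δs x.1 + x.2))
    (fun p hp => by
      obtain ⟨g1, g2, g3, g4, g5, g6⟩ := hΘ p hp
      refine ⟨?_, ?_, by simp, ?_, ?_⟩
      · exact (g1.comp ((differentiable_id.const_add _).differentiableOn) (hmaps p hp)).sub_const _
      · intro u hu
        refine (norm_sub_le _ _).trans ?_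
        have := g2 _ (hsh p hp u hu)
        have := g2 _ (hδin p hp)
        linarith
      · rw [hdq]
        simpa using g4
      · rw [hddq]
        refine g6 (δs p) ?_
        linarith [g3])
    (Eventually.of_forall fun N p hp =>
      (((hYd N p hp).comp ((differentiable_id.const_add _).differentiableOn)
        (hmaps p hp)).cexp).continuousOn)
    (fun k p hp => by
      have h3 : DifferentiableOn ℂ (fun u : ℂ => (δs p : ℂ) + u) (ball (0 : ℂ) (ρ / 2)) :=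
        (differentiable_id.const_add _).differentiableOn
      exact (hbd k p hp).comp h3 (hmaps p hp))
    (by
      intro K
      obtain ⟨C, hC⟩ := hb K
      refine ⟨C, ?_⟩
      filter_upwards [hC] with N hN x hx
      exact hN (x.1, δs x.1 + x.2) ⟨hx.1, hsh x.1 hx.1 x.2 hx.2⟩)
  refine ⟨A, ?_, ?_⟩
  swap
  · intro p hp
    rw [hA0 p hp, hddq]
    simp only [add_zero]
    rw [hb0]
  -- the error
  obtain ⟨CY, hCY⟩ := hY 0
  intro K
  obtain ⟨CA, hCA⟩ := hA K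
  obtain ⟨C1, hC1⟩ := hT (K + 1)
  obtain ⟨C2, hC2⟩ := hY (K + 1)
  set C3 := |C1| + |C2| with hC3
  have hC30 : 0 ≤ C3 := by positivity
  refine ⟨CA + 2 * Real.exp CY * C3 + 9 * Real.exp CY, ?_⟩
  have hk1 : 0 < c / 4 * (ρ / 8) ^ 2 := by positivity
  have hk2 : 0 < π * h := by positivity
  have hk3 : 0 < c / 2 * η ^ 2 := by positivity
  have hlim : ∀ᶠ N : ℕ in atTop, C3 / (N : ℝ) ^ (K + 1) ≤ 1 := by
    obtain ⟨N1, hN1⟩ := exists_nat_ge C3
    filter_upwards [eventually_ge_atTop (max N1 1)] with N hN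
    have h1 : (1 : ℝ) ≤ N := by exact_mod_cast (le_max_right _ _).trans hN
    have h2 : (N1 : ℝ) ≤ N := by exact_mod_cast (le_max_left _ _).trans hN
    rw [div_le_one (by positivity)]
    calc C3 ≤ N := hN1.trans h2
      _ = (N : ℝ) ^ 1 := (pow_one _).symm
      _ ≤ (N : ℝ) ^ (K + 1) := pow_le_pow_right₀ h1 (by omega)
  have hNh : ∀ᶠ N : ℕ in atTop, 1 ≤ (N : ℝ) * h ∧ 8 ≤ (N : ℝ) * ρ := by
    have t1 : Tendsto (fun N : ℕ => (N : ℝ) * h) atTop atTop :=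
      tendsto_natCast_atTop_atTop.atTop_mul_const hh0
    have t2 : Tendsto (fun N : ℕ => (N : ℝ) * ρ) atTop atTop :=
      tendsto_natCast_atTop_atTop.atTop_mul_const hρ
    exact (t1.eventually_ge_atTop 1).and (t2.eventually_ge_atTop 8)
  filter_upwards [hCY, hCA, hC1, hC2, hlim, hNh, small' _ hk1 K, small _ hk2 K, small _ hk3 K,
    eventually_gt_atTop 0] with N gY gA gT gY2 glim gN gs1 gs2 gs3 gN0 p hp
  have hN0 : (0 : ℝ) < N := by exact_mod_cast gN0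
  have hN1 : (1 : ℝ) ≤ N := by exact_mod_cast gN0
  obtain ⟨g1, g2, g3, g4, g5, g6⟩ := hΘ p hp
  have hδρ : |δs p - 1 / 4| < ρ := by linarith
  have hYb : ∀ z ∈ ball (1 / 4 : ℂ) ρ, ‖Y N (p, z)‖ ≤ CY := by
    intro z hz
    have := gY (p, z) ⟨hp, hz⟩
    simpa using this
  set W := (range N).filter (fun d : ℕ => |(d : ℝ) / N - 1 / 4| < ρ / 2) with hW
  set F : ℕ → ℂ := fun d =>
    Complex.exp (N * (Θ p ((d : ℂ) / N) - Θ p (δs p)) + Y N (p, (d : ℂ) / N)) with hF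
  have hwin := window hSI ρ c B CY h η hρ hρ' hc hh0 hh1 hh2 hh3 hη0 hη1 (Θ p) (δs p) g1 g2 g3 g4
    g5 g6 (fun z => Y N (p, z)) (hYd N p hp) hYb N gN.1 gN.2
  -- the terms
  have hterm : ∀ d ∈ W, ‖Complex.exp (-(N * Θ p (δs p))) * T N d p - F d‖ ≤
      2 * Real.exp CY * C3 / (N : ℝ) ^ (K + 1) := by
    intro d hd
    rw [hW, mem_filter] at hd
    have hdρ : |(d : ℝ) / N - 1 / 4| < ρ := by linarith [hd.2]
    obtain ⟨e, he, hTe⟩ := gT d hdρ p hp
    have hdin : (d : ℂ) / N ∈ ball (1 / 4 : ℂ) ρ := by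
      rw [mem_ball, dist_eq_norm]
      have e1 : (d : ℂ) / N - 1 / 4 = (((d : ℝ) / N - 1 / 4 : ℝ) : ℂ) := by
        push_cast
        ring
      rw [e1, Complex.norm_real, Real.norm_eq_abs]
      exact hdρ
    have hy := gY2 (p, (d : ℂ) / N) ⟨hp, hdin⟩
    set e' := e - (Y N (p, (d : ℂ) / N) -
      ∑ k ∈ range (K + 1), w k (p, (d : ℂ) / N) / (N : ℂ) ^ k) with he'
    have hn : ‖e'‖ ≤ C3 / (N : ℝ) ^ (K + 1) := by
      rw [he', hC3, add_div]
      refine (norm_sub_le _ _).trans (add_le_add (he.trans ?_) (hy.trans ?_))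
      · gcongr
        exact le_abs_self _
      · gcongr
        exact le_abs_self _
    have hfac : Complex.exp (-(N * Θ p (δs p))) * T N d p = F d * Complex.exp e' := by
      rw [hTe, hF, ← Complex.exp_add]
      show _ = Complex.exp (N * (Θ p ((d : ℂ) / N) - Θ p (δs p)) + Y N (p, (d : ℂ) / N)) * _
      rw [← Complex.exp_add, he']
      congr 1
      ring
    have hFn : ‖F d‖ ≤ Real.exp CY := by
      rw [hF]
      simp only [Complex.norm_exp]
      refine Real.exp_le_exp.2 ?_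
      have e1 : ((N : ℂ) * (Θ p ((d : ℂ) / N) - Θ p (δs p)) + Y N (p, (d : ℂ) / N)).re =
          N * ((Θ p ((d : ℂ) / N)).re - (Θ p (δs p)).re) + (Y N (p, (d : ℂ) / N)).re := by
        simp [Complex.mul_re]
      rw [e1]
      have h3 := conc ρ c (Θ p) (δs p) g1 hδρ g4 g6 ((d : ℝ) / N) hdρ
      push_cast at h3
      have h4 : (0 : ℝ) ≤ c / 2 * ((d : ℝ) / N - δs p) ^ 2 := by positivity
      have h5 : (Θ p ((d : ℂ) / N)).re - (Θ p (δs p)).re ≤ 0 := by linarith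
      have h6 := mul_nonpos_of_nonneg_of_nonpos hN0.le h5
      have h7 := (Complex.re_le_norm _).trans (hYb _ hdin)
      linarith
    have e2 : F d * Complex.exp e' - F d = F d * (Complex.exp e' - 1) := by ring
    rw [hfac, e2, norm_mul]
    have h8 := Complex.norm_exp_sub_one_le (hn.trans glim)
    calc ‖F d‖ * ‖Complex.exp e' - 1‖ ≤ Real.exp CY * (2 * (C3 / (N : ℝ) ^ (K + 1))) := by
          refine mul_le_mul hFn (h8.trans ?_) (norm_nonneg _) (Real.exp_pos _).le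
          linarith
      _ = _ := by ring
  have hsum : ‖Complex.exp (-(N * Θ p (δs p))) * ∑ d ∈ W, T N d p - ∑ d ∈ W, F d‖ ≤
      2 * Real.exp CY * C3 / (N : ℝ) ^ K := by
    rw [mul_sum, ← sum_sub_distrib]
    refine (norm_sum_le _ _).trans ((sum_le_sum hterm).trans ?_)
    rw [sum_const, nsmul_eq_mul]
    have hcard : (W.card : ℝ) ≤ N := by
      have h3 := card_filter_le (range N) (fun d : ℕ => |(d : ℝ) / N - 1 / 4| < ρ / 2)
      rw [card_range] at h3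
      exact_mod_cast h3
    calc (W.card : ℝ) * (2 * Real.exp CY * C3 / (N : ℝ) ^ (K + 1)) ≤
        N * (2 * Real.exp CY * C3 / (N : ℝ) ^ (K + 1)) := by
          refine mul_le_mul_of_nonneg_right hcard (by positivity)
      _ = _ := by
          rw [pow_succ]
          field_simp
  set I := ∫ x in (-η)..η, Complex.exp (N * (Θ p (δs p + x) - Θ p (δs p))) *
    Complex.exp (Y N (p, δs p + x)) with hI
  have hwin2 : ‖∑ d ∈ W, F d - N * I‖ ≤ 9 * Real.exp CY / (N : ℝ) ^ K := by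
    refine hwin.trans ?_
    have hE := Real.exp_pos CY
    have i1 := mul_le_mul_of_nonneg_left gs1 hE.le
    have i2 := mul_le_mul_of_nonneg_left gs2 hE.le
    have i3 := mul_le_mul_of_nonneg_left gs3 hE.le
    have e1 : 9 * Real.exp CY / (N : ℝ) ^ K = 4 * (Real.exp CY * (1 / (N : ℝ) ^ K)) +
      4 * (Real.exp CY * (1 / (N : ℝ) ^ K)) + Real.exp CY * (1 / (N : ℝ) ^ K) := by ring
    have e2 : 4 * (Real.exp CY * (Real.exp (-(c / 4 * (ρ / 8) ^ 2) * N) +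
        N * Real.exp (-(π * h) * N))) + N * (Real.exp CY * Real.exp (-(c / 2 * η ^ 2) * N)) =
        4 * (Real.exp CY * Real.exp (-(c / 4 * (ρ / 8) ^ 2) * N)) +
        4 * (Real.exp CY * (N * Real.exp (-(π * h) * N))) +
        Real.exp CY * (N * Real.exp (-(c / 2 * η ^ 2) * N)) := by ring
    rw [e1, e2]
    linarith
  have hsq : Real.sqrt N ≠ 0 := (Real.sqrt_pos.2 hN0).ne'
  have hsqN : ((Real.sqrt N : ℝ) : ℂ)⁻¹ * (N : ℂ) = ((Real.sqrt N : ℝ) : ℂ) := by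
    have h3 : ((Real.sqrt N : ℝ) : ℂ) * ((Real.sqrt N : ℝ) : ℂ) = (N : ℂ) := by
      rw [← Complex.ofReal_mul, Real.mul_self_sqrt hN0.le]
      simp
    rw [← h3, inv_mul_cancel_left₀]
    exact_mod_cast hsq
  have hsq1 : ‖((Real.sqrt N : ℝ) : ℂ)⁻¹‖ ≤ 1 := by
    rw [norm_inv, Complex.norm_real, Real.norm_eq_abs, abs_of_nonneg (Real.sqrt_nonneg _)]
    exact inv_le_one_of_one_le₀ (Real.one_le_sqrt.2 hN1)
  have hA2 : ‖((Real.sqrt N : ℝ) : ℂ) * I - ∑ k ∈ range K, A k p / (N : ℂ) ^ k‖ ≤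
      CA / (N : ℝ) ^ K := gA p hp
  have hfin : ((Real.sqrt N : ℝ) : ℂ)⁻¹ * Complex.exp (-(N * Θ p (δs p))) * ∑ d ∈ W, T N d p -
      ∑ k ∈ range K, A k p / (N : ℂ) ^ k =
      (((Real.sqrt N : ℝ) : ℂ) * I - ∑ k ∈ range K, A k p / (N : ℂ) ^ k) +
      ((Real.sqrt N : ℝ) : ℂ)⁻¹ * (Complex.exp (-(N * Θ p (δs p))) * ∑ d ∈ W, T N d p -
        ∑ d ∈ W, F d) + ((Real.sqrt N : ℝ) : ℂ)⁻¹ * (∑ d ∈ W, F d - N * I) := by
    have e : ((Real.sqrt N : ℝ) : ℂ) * I = ((Real.sqrt N : ℝ) : ℂ)⁻¹ * ((N : ℂ) * I) := by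
      rw [← mul_assoc, hsqN]
    rw [e]
    ring
  show ‖((Real.sqrt N : ℝ) : ℂ)⁻¹ * Complex.exp (-(N * Θ p (δs p))) * ∑ d ∈ W, T N d p -
      ∑ k ∈ range K, A k p / (N : ℂ) ^ k‖ ≤ _
  rw [hfin, add_div, add_div]
  refine (norm_add_le _ _).trans (add_le_add ((norm_add_le _ _).trans (add_le_add hA2 ?_)) ?_)
  · rw [norm_mul]
    calc _ ≤ 1 * (2 * Real.exp CY * C3 / (N : ℝ) ^ K) :=
          mul_le_mul hsq1 hsum (norm_nonneg _) zero_le_one
      _ = _ := one_mul _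
  · rw [norm_mul]
    calc _ ≤ 1 * (9 * Real.exp CY / (N : ℝ) ^ K) :=
          mul_le_mul hsq1 hwin2 (norm_nonneg _) zero_le_one
      _ = _ := one_mul _

end Pool.Agent.W613.AX
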