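import Pool.Agent.W719.AX.Ker
import Pool.Agent.W303.AX.UX1

/-!
# The window of the sum over `d`

Part WIN of project AX.
-/

set_option autoImplicit false
set_option linter.all false

namespace Pool.Agent.W613.AX

open Finset Filter Topology Metric
open Pool.Agent.W711.HT Pool.Agent.W719.AX
open scoped Real

/-- Borel's trick: every sequence of bounded coefficients has a sum. -/
theorem borel {X : Type} (w : ℕ → X → ℂ) (S : Set X)
    (hw : ∀ k, ∃ B : ℝ, ∀ x ∈ S, ‖w k x‖ ≤ B) :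
    ∃ κ : ℕ → ℕ, UX (fun N x => ∑ k ∈ range (κ N), w k x / (N : ℂ) ^ k) w S := by
  classical
  choose B hB using hw
  set b : ℕ → ℝ := fun k => max (B k) 0 with hbdef
  have hb0 : ∀ k, 0 ≤ b k := fun k => le_max_right _ _
  have hb : ∀ k, ∀ x ∈ S, ‖w k x‖ ≤ b k := fun k x hx => (hB k x hx).trans (le_max_left _ _)
  let P : ℕ → ℕ → Prop := fun N m => ∀ k < m, b k * 2 ^ k ≤ N
  refine ⟨fun N => Nat.findGreatest (P N) N, ?_⟩
  intro K
  refine ⟨b K + 2, ?_⟩
  obtain ⟨N1, hN1⟩ : ∃ N1 : ℕ, ∀ k < K + 1, b k * 2 ^ k ≤ N1 := by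
    obtain ⟨N1, hN1⟩ := exists_nat_ge (∑ k ∈ range (K + 1), b k * 2 ^ k)
    refine ⟨N1, fun k hk => (single_le_sum (f := fun k => b k * 2 ^ k) (fun i _ => ?_)
      (mem_range.2 hk)).trans hN1⟩
    have := hb0 i
    positivity
  filter_upwards [eventually_ge_atTop (max N1 (K + 1))] with N hN x hx
  have hPN : P N (K + 1) := fun k hk =>
    (hN1 k hk).trans (by exact_mod_cast (le_max_left _ _).trans hN)
  have hκ : K + 1 ≤ Nat.findGreatest (P N) N :=
    Nat.le_findGreatest ((le_max_right _ _).trans hN) hPN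
  have hspec : P N (Nat.findGreatest (P N) N) :=
    Nat.findGreatest_spec (m := 0) (Nat.zero_le _) (fun k hk => absurd hk (Nat.not_lt_zero _))
  set κ := Nat.findGreatest (P N) N with hκdef
  have hNN : K + 1 ≤ N := (le_max_right _ _).trans hN
  have hN1' : (1 : ℝ) ≤ N := by exact_mod_cast (by omega : 1 ≤ N)
  have hN0 : (0 : ℝ) < N := by linarith
  rw [← sum_Ico_eq_sub _ (by omega : K ≤ κ)]
  have hterm : ∀ k ∈ Ico K κ, ‖w k x / (N : ℂ) ^ k‖ ≤
      ((if k = K then b K else 0) + (1 / 2 : ℝ) ^ k) / (N : ℝ) ^ K := by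
    intro k hk
    rw [mem_Ico] at hk
    rw [norm_div, norm_pow, Complex.norm_natCast]
    by_cases hkK : k = K
    · rw [if_pos hkK, hkK]
      gcongr
      have h1 := hb K x hx
      have h2 : (0 : ℝ) ≤ (1 / 2) ^ K := by positivity
      linarith
    · rw [if_neg hkK, zero_add, div_le_div_iff₀ (by positivity) (by positivity)]
      have h1 := hb k x hx
      have h2 : b k * 2 ^ k ≤ N := hspec k hk.2
      have h3 : b k ≤ N * (1 / 2 : ℝ) ^ k := by
        rw [one_div, inv_pow, ← div_eq_mul_inv, le_div_iff₀ (by positivity)]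
        exact h2
      calc ‖w k x‖ * (N : ℝ) ^ K ≤ (N * (1 / 2 : ℝ) ^ k) * (N : ℝ) ^ K := by
            gcongr
            exact h1.trans h3
        _ = (1 / 2 : ℝ) ^ k * (N : ℝ) ^ (K + 1) := by ring
        _ ≤ (1 / 2 : ℝ) ^ k * (N : ℝ) ^ k := by
            refine mul_le_mul_of_nonneg_left (pow_le_pow_right₀ hN1' (by omega)) (by positivity)
  refine (norm_sum_le _ _).trans ((sum_le_sum hterm).trans ?_)
  rw [← sum_div]
  gcongr
  rw [sum_add_distrib]
  have h1 : ∑ k ∈ Ico K κ, (if k = K then b K else 0) ≤ b K := by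
    rw [sum_ite_eq']
    split_ifs
    · exact le_rfl
    · exact hb0 K
  have h2 : ∑ k ∈ Ico K κ, (1 / 2 : ℝ) ^ k ≤ 2 := by
    have h3 := summable_geometric_two.sum_le_tsum (Ico K κ) (fun i _ => by positivity)
    rwa [tsum_geometric_two] at h3
  linarith

theorem conc (ρ c : ℝ) (Θ : ℂ → ℂ) (δs : ℝ) (hΘ : DifferentiableOn ℂ Θ (ball (1 / 4) ρ))
    (hδ : |δs - 1 / 4| < ρ) (h0 : deriv Θ δs = 0)
    (h2 : ∀ x : ℝ, |x - 1 / 4| < ρ → (deriv (deriv Θ) x).re ≤ -c) (x : ℝ)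
    (hx : |x - 1 / 4| < ρ) : (Θ x).re ≤ (Θ δs).re - c / 2 * (x - δs) ^ 2 := by
  have hball : ∀ t : ℝ, |t - 1 / 4| < ρ → (t : ℂ) ∈ ball (1 / 4 : ℂ) ρ := by
    intro t ht
    rw [mem_ball, dist_eq_norm]
    have e : (t : ℂ) - 1 / 4 = ((t - 1 / 4 : ℝ) : ℂ) := by push_cast; ring
    rw [e, Complex.norm_real, Real.norm_eq_abs]
    exact ht
  have hΘ' : DifferentiableOn ℂ (deriv Θ) (ball (1 / 4) ρ) := hΘ.deriv isOpen_ball
  have d1 : ∀ t : ℝ, |t - 1 / 4| < ρ → HasDerivAt (fun t : ℝ => (Θ t).re) (deriv Θ t).re t :=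
    fun t ht => ((hΘ.differentiableAt (isOpen_ball.mem_nhds (hball t ht))).hasDerivAt).real_of_complex
  have d2 : ∀ t : ℝ, |t - 1 / 4| < ρ →
      HasDerivAt (fun t : ℝ => (deriv Θ t).re) (deriv (deriv Θ) t).re t :=
    fun t ht => ((hΘ'.differentiableAt (isOpen_ball.mem_nhds (hball t ht))).hasDerivAt).real_of_complex
  set I : Set ℝ := Set.Ioo (1 / 4 - ρ) (1 / 4 + ρ) with hI
  have hIm : ∀ t : ℝ, t ∈ I ↔ |t - 1 / 4| < ρ := by
    intro t
    rw [hI, Set.mem_Ioo, abs_lt]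
    constructor
    · rintro ⟨h, h'⟩
      constructor <;> linarith
    · rintro ⟨h, h'⟩
      constructor <;> linarith
  set g : ℝ → ℝ := fun t => (deriv Θ t).re + c * (t - δs) with hg
  have dg : ∀ t ∈ I, HasDerivAt g ((deriv (deriv Θ) t).re + c) t := by
    intro t ht
    have h1 := (d2 t ((hIm t).1 ht)).add (((hasDerivAt_id t).sub_const δs).const_mul c)
    rw [mul_one] at h1
    exact h1
  have hga : AntitoneOn g I := by
    refine antitoneOn_of_deriv_nonpos (convex_Ioo _ _)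
      (fun t ht => (dg t ht).continuousAt.continuousWithinAt) ?_ ?_
    · intro t ht
      rw [interior_Ioo] at ht
      exact (dg t ht).differentiableAt.differentiableWithinAt
    · intro t ht
      rw [interior_Ioo] at ht
      rw [(dg t ht).deriv]
      linarith [h2 t ((hIm t).1 ht)]
  have hg0 : g δs = 0 := by
    rw [hg]
    simp [h0]
  set G : ℝ → ℝ := fun t => (Θ t).re + c / 2 * (t - δs) ^ 2 with hG
  have dG : ∀ t ∈ I, HasDerivAt G (g t) t := by
    intro t ht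
    have h1 := (d1 t ((hIm t).1 ht)).add
      ((((hasDerivAt_id t).sub_const δs).pow 2).const_mul (c / 2))
    have e : g t = (deriv Θ t).re + c / 2 * (((2 : ℕ) : ℝ) * (id t - δs) ^ (2 - 1) * 1) := by
      rw [hg]
      simp
      ring
    rw [e]
    exact h1
  have hδI : δs ∈ I := (hIm _).2 hδ
  have hxI : x ∈ I := (hIm _).2 hx
  have hkey : G x ≤ G δs := by
    rcases le_total δs x with hle | hle
    · have hsub : Set.Icc δs x ⊆ I := fun t ht => ⟨hδI.1.trans_le ht.1, ht.2.trans_lt hxI.2⟩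
      refine antitoneOn_of_deriv_nonpos (convex_Icc δs x)
        (fun t ht => (dG t (hsub ht)).continuousAt.continuousWithinAt) ?_ ?_
        (Set.left_mem_Icc.2 hle) (Set.right_mem_Icc.2 hle) hle
      · intro t ht
        exact (dG t (hsub (interior_subset ht))).differentiableAt.differentiableWithinAt
      · intro t ht
        have ht' := interior_subset ht
        rw [(dG t (hsub ht')).deriv, ← hg0]
        exact hga hδI (hsub ht') ht'.1
    · have hsub : Set.Icc x δs ⊆ I := fun t ht => ⟨hxI.1.trans_le ht.1, ht.2.trans_lt hδI.2⟩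
      refine monotoneOn_of_deriv_nonneg (convex_Icc x δs)
        (fun t ht => (dG t (hsub ht)).continuousAt.continuousWithinAt) ?_ ?_
        (Set.left_mem_Icc.2 hle) (Set.right_mem_Icc.2 hle) hle
      · intro t ht
        exact (dG t (hsub (interior_subset ht))).differentiableAt.differentiableWithinAt
      · intro t ht
        have ht' := interior_subset ht
        rw [(dG t (hsub ht')).deriv, ← hg0]
        exact hga (hsub ht') hδI ht'.2
  have e1 : G x = (Θ x).re + c / 2 * (x - δs) ^ 2 := rfl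
  have e2 : G δs = (Θ δs).re := by
    rw [hG]
    simp
  rw [e1, e2] at hkey
  linarith

theorem vert (ρ B : ℝ) (hρ : 0 < ρ) (Θ : ℂ → ℂ)
    (hΘ : DifferentiableOn ℂ Θ (ball (1 / 4) ρ)) (hB : ∀ δ ∈ ball (1 / 4 : ℂ) ρ, ‖Θ δ‖ ≤ B)
    (him : ∀ x : ℝ, |x - 1 / 4| < ρ → (Θ x).im = 0) (x y : ℝ) (hx : |x - 1 / 4| ≤ 5 * ρ / 8)
    (hy : |y| ≤ ρ / 16) :
    (Θ (x + y * Complex.I)).re ≤ (Θ x).re + 64 * B / ρ ^ 2 * y ^ 2 := by
  have hΘ' : DifferentiableOn ℂ (deriv Θ) (ball (1 / 4) ρ) := hΘ.deriv isOpen_ball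
  have c1 : ∀ z ∈ ball (1 / 4 : ℂ) (7 * ρ / 8), ‖deriv Θ z‖ ≤ 8 * B / ρ := by
    intro z hz
    rw [mem_ball] at hz
    have hsub : closedBall z (ρ / 8) ⊆ ball (1 / 4) ρ := by
      intro u hu
      rw [mem_closedBall] at hu
      rw [mem_ball]
      have := dist_triangle u z (1 / 4)
      linarith
    have h1 := Complex.norm_deriv_le_of_forall_mem_sphere_norm_le (c := z) (R := ρ / 8) (C := B)
      (f := Θ) (by positivity)
      ((hΘ.mono (closure_ball_subset_closedBall.trans hsub)).diffContOnCl)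
      (fun u hu => hB u (hsub (sphere_subset_closedBall hu)))
    refine h1.trans (le_of_eq ?_)
    field_simp
  have c2 : ∀ z ∈ ball (1 / 4 : ℂ) (3 * ρ / 4), ‖deriv (deriv Θ) z‖ ≤ 64 * B / ρ ^ 2 := by
    intro z hz
    rw [mem_ball] at hz
    have hsub : closedBall z (ρ / 8) ⊆ ball (1 / 4) (7 * ρ / 8) := by
      intro u hu
      rw [mem_closedBall] at hu
      rw [mem_ball]
      have := dist_triangle u z (1 / 4)
      linarith
    have hsub2 : ball (1 / 4 : ℂ) (7 * ρ / 8) ⊆ ball (1 / 4) ρ := ball_subset_ball (by linarith)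
    have h1 := Complex.norm_deriv_le_of_forall_mem_sphere_norm_le (c := z) (R := ρ / 8)
      (C := 8 * B / ρ) (f := deriv Θ) (by positivity)
      ((hΘ'.mono (closure_ball_subset_closedBall.trans (hsub.trans hsub2))).diffContOnCl)
      (fun u hu => c1 u (hsub (sphere_subset_closedBall hu)))
    refine h1.trans (le_of_eq ?_)
    field_simp
    ring
  have hB0 : 0 ≤ 64 * B / ρ ^ 2 := (norm_nonneg _).trans (c2 (1 / 4) (mem_ball_self (by positivity)))
  have hmem : ∀ t : ℝ, |t| ≤ ρ / 16 → (x : ℂ) + t * Complex.I ∈ ball (1 / 4 : ℂ) (3 * ρ / 4) := by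
    intro t ht
    rw [mem_ball, dist_eq_norm]
    have e : (x : ℂ) + t * Complex.I - 1 / 4 = ((x - 1 / 4 : ℝ) : ℂ) + (t : ℂ) * Complex.I := by
      push_cast
      ring
    rw [e]
    refine (norm_add_le _ _).trans_lt ?_
    rw [norm_mul, Complex.norm_real, Complex.norm_real, Complex.norm_I, Real.norm_eq_abs,
      Real.norm_eq_abs, mul_one]
    linarith
  have hsub3 : ball (1 / 4 : ℂ) (3 * ρ / 4) ⊆ ball (1 / 4) ρ := ball_subset_ball (by linarith)
  -- the derivative is real on the real line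
  have him' : (deriv Θ x).im = 0 := by
    have hxρ : |x - 1 / 4| < ρ := by linarith
    have hxb : (x : ℂ) ∈ ball (1 / 4 : ℂ) ρ := by
      have := hsub3 (hmem 0 (by rw [abs_zero]; positivity))
      simpa using this
    have h1 := (hΘ.differentiableAt (isOpen_ball.mem_nhds hxb)).hasDerivAt
    have h2 := (h1.const_mul (-Complex.I)).real_of_complex
    have h3 : (fun t : ℝ => (-Complex.I * Θ t).re) =ᶠ[𝓝 x] fun _ => (0 : ℝ) := by
      have h4 : ∀ᶠ t : ℝ in 𝓝 x, |t - 1 / 4| < ρ := by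
        have : Continuous fun t : ℝ => |t - 1 / 4| := by fun_prop
        exact this.continuousAt.eventually (gt_mem_nhds hxρ)
      filter_upwards [h4] with t ht
      have := him t ht
      simp [this]
    have h5 := (h2.congr_of_eventuallyEq h3.symm).unique (hasDerivAt_const x (0 : ℝ))
    simpa using h5
  have hdiff : ∀ t : ℝ, |t| ≤ |y| → |(deriv Θ (x + t * Complex.I)).im| ≤ 64 * B / ρ ^ 2 * |y| := by
    intro t ht
    have h1 := Convex.norm_image_sub_le_of_norm_deriv_le (f := deriv Θ)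
      (s := ball (1 / 4 : ℂ) (3 * ρ / 4)) (C := 64 * B / ρ ^ 2) (x := (x : ℂ) + (0 : ℝ) * Complex.I)
      (y := x + t * Complex.I)
      (fun z hz => hΘ'.differentiableAt (isOpen_ball.mem_nhds (hsub3 hz))) c2
      (convex_ball _ _) (hmem 0 (by rw [abs_zero]; positivity)) (hmem t (ht.trans hy))
    have e1 : ((x : ℂ) + t * Complex.I) - (x + (0 : ℝ) * Complex.I) = t * Complex.I := by
      push_cast
      ring
    rw [e1, norm_mul, Complex.norm_I, mul_one, Complex.norm_real, Real.norm_eq_abs] at h1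
    have e2 : ((x : ℂ) + (0 : ℝ) * Complex.I) = x := by simp
    rw [e2] at h1
    have h2 := (Complex.abs_im_le_norm (deriv Θ (x + t * Complex.I) - deriv Θ x)).trans h1
    rw [Complex.sub_im, him', sub_zero] at h2
    exact h2.trans (mul_le_mul_of_nonneg_left ht hB0)
  have hder : ∀ t : ℝ, |t| ≤ |y| → HasDerivAt (fun t : ℝ => (Θ (x + t * Complex.I)).re)
      (-(deriv Θ (x + t * Complex.I)).im) t := by
    intro t ht
    have h1 := (hΘ.differentiableAt (isOpen_ball.mem_nhds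
      (hsub3 (hmem t (ht.trans hy))))).hasDerivAt
    have h2 : HasDerivAt (fun z : ℂ => (x : ℂ) + z * Complex.I) Complex.I (t : ℂ) := by
      have := ((hasDerivAt_id (t : ℂ)).mul_const Complex.I).const_add (x : ℂ)
      simpa using this
    have h3 := (HasDerivAt.comp (t : ℂ) h1 h2).real_of_complex
    have e : (deriv Θ (x + t * Complex.I) * Complex.I).re =
        -(deriv Θ (x + t * Complex.I)).im := by simp
    rw [e] at h3
    exact h3
  have hmv := Convex.norm_image_sub_le_of_norm_hasDerivWithin_le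
    (f := fun t : ℝ => (Θ (x + t * Complex.I)).re)
    (f' := fun t : ℝ => -(deriv Θ (x + t * Complex.I)).im) (s := closedBall (0 : ℝ) |y|)
    (C := 64 * B / ρ ^ 2 * |y|) (x := 0) (y := y)
    (fun t ht => (hder t (by simpa using ht)).hasDerivWithinAt)
    (fun t ht => by
      rw [norm_neg, Real.norm_eq_abs]
      exact hdiff t (by simpa using ht))
    (convex_closedBall _ _) (by simp) (by simp)
  have h5 := (le_abs_self _).trans hmv
  simp only [Complex.ofReal_zero, zero_mul, add_zero, sub_zero, Real.norm_eq_abs] at h5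
  have h6 : 64 * B / ρ ^ 2 * |y| * |y| = 64 * B / ρ ^ 2 * y ^ 2 := by
    rw [mul_assoc, ← sq, sq_abs]
  rw [h6] at h5
  linarith

theorem window (hSI : S_SI) (ρ c B CY h η : ℝ) (hρ : 0 < ρ) (hρ' : ρ ≤ 1 / 16) (hc : 0 < c)
    (hh : 0 < h) (hh1 : h ≤ ρ / 16) (hh2 : 64 * B / ρ ^ 2 * h ≤ π)
    (hh3 : 64 * B / ρ ^ 2 * h ^ 2 ≤ c / 4 * (ρ / 8) ^ 2) (hη : 0 < η) (hη' : η ≤ ρ / 8)
    (Θ : ℂ → ℂ) (δs : ℝ) (hΘ : DifferentiableOn ℂ Θ (ball (1 / 4) ρ))
    (hB : ∀ δ ∈ ball (1 / 4 : ℂ) ρ, ‖Θ δ‖ ≤ B) (hδ : |δs - 1 / 4| ≤ ρ / 4)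
    (h0 : deriv Θ δs = 0) (him : ∀ x : ℝ, |x - 1 / 4| < ρ → (Θ x).im = 0)
    (h2 : ∀ x : ℝ, |x - 1 / 4| < ρ → (deriv (deriv Θ) x).re ≤ -c)
    (Y : ℂ → ℂ) (hY : DifferentiableOn ℂ Y (ball (1 / 4) ρ))
    (hCY : ∀ z ∈ ball (1 / 4 : ℂ) ρ, ‖Y z‖ ≤ CY) (N : ℕ) (hN1 : 1 ≤ N * h) (hN2 : 8 ≤ N * ρ) :
    ‖∑ d ∈ (range N).filter (fun d : ℕ => |(d : ℝ) / N - 1 / 4| < ρ / 2),
        Complex.exp (N * (Θ ((d : ℂ) / N) - Θ δs) + Y ((d : ℂ) / N)) -
      N * ∫ x in (-η)..η, Complex.exp (N * (Θ (δs + x) - Θ δs)) * Complex.exp (Y (δs + x))‖ ≤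
    4 * (Real.exp CY * (Real.exp (-(c / 4 * (ρ / 8) ^ 2) * N) + N * Real.exp (-(π * h) * N))) +
      N * (Real.exp CY * Real.exp (-(c / 2 * η ^ 2) * N)) := by
  have hNρ : (0 : ℝ) < N := by
    by_contra hcon
    have h1 : (N : ℝ) ≤ 0 := by linarith
    have : (N : ℝ) * ρ ≤ 0 := mul_nonpos_of_nonpos_of_nonneg h1 hρ.le
    linarith
  have hNpos : 0 < N := by exact_mod_cast hNρ
  have hN128 : (128 : ℝ) ≤ N := by
    by_contra hcon
    push Not at hcon
    have : (N : ℝ) * ρ ≤ N * (1 / 16) := mul_le_mul_of_nonneg_left hρ' hNρ.le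
    linarith
  have hinv : 1 / (2 * (N : ℝ)) ≤ ρ / 16 := by
    rw [div_le_div_iff₀ (by positivity) (by positivity)]
    linarith
  have hB0 : 0 ≤ 64 * B / ρ ^ 2 := by
    have h1 : 0 ≤ B := (norm_nonneg _).trans (hB (1 / 4) (mem_ball_self hρ))
    positivity
  obtain ⟨hδ1, hδ2⟩ := abs_le.1 hδ
  have hδρ : |δs - 1 / 4| < ρ := by linarith
  have himδ : (Θ δs).im = 0 := him δs hδρ
  have hball : ∀ x y : ℝ, |x - 1 / 4| ≤ 5 * ρ / 8 → |y| ≤ ρ / 16 →
      (x : ℂ) + y * Complex.I ∈ ball (1 / 4 : ℂ) ρ := by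
    intro x y hx hy
    rw [mem_ball, dist_eq_norm]
    have e : (x : ℂ) + y * Complex.I - 1 / 4 = ((x - 1 / 4 : ℝ) : ℂ) + (y : ℂ) * Complex.I := by
      push_cast
      ring
    rw [e]
    refine (norm_add_le _ _).trans_lt ?_
    rw [norm_mul, Complex.norm_real, Complex.norm_real, Complex.norm_I, Real.norm_eq_abs,
      Real.norm_eq_abs, mul_one]
    linarith
  have hballr : ∀ x : ℝ, |x - 1 / 4| ≤ 5 * ρ / 8 → (x : ℂ) ∈ ball (1 / 4 : ℂ) ρ := by
    intro x hx
    have := hball x 0 hx (by rw [abs_zero]; positivity)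
    simpa using this
  set F : ℂ → ℂ := fun z => Complex.exp (N * (Θ z - Θ δs) + Y z) with hF
  have hFd : ∀ z ∈ ball (1 / 4 : ℂ) ρ, DifferentiableAt ℂ F z := by
    intro z hz
    have h3 := hΘ.differentiableAt (isOpen_ball.mem_nhds hz)
    have h4 := hY.differentiableAt (isOpen_ball.mem_nhds hz)
    exact ((((h3.sub_const _).const_mul _).add h4)).cexp
  have hFn : ∀ z ∈ ball (1 / 4 : ℂ) ρ, ‖F z‖ ≤ Real.exp (N * ((Θ z).re - (Θ δs).re) + CY) := by
    intro z hz
    have e : ((N : ℂ) * (Θ z - Θ δs) + Y z).re = N * ((Θ z).re - (Θ δs).re) + (Y z).re := by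
      simp [Complex.mul_re]
    rw [hF]
    simp only [Complex.norm_exp, e]
    refine Real.exp_le_exp.2 ?_
    have := (Complex.re_le_norm (Y z)).trans (hCY z hz)
    linarith
  -- the end points
  set a : ℕ := ⌊(N : ℝ) * (1 / 4 - ρ / 2)⌋₊ + 1 with ha
  set b : ℕ := ⌈(N : ℝ) * (1 / 4 + ρ / 2)⌉₊ with hb
  have hp1 : (0 : ℝ) ≤ N * (1 / 4 - ρ / 2) := mul_nonneg hNρ.le (by linarith)
  have ha1 : (N : ℝ) * (1 / 4 - ρ / 2) < a := by
    rw [ha]
    push_cast
    exact Nat.lt_floor_add_one _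
  have ha2 : (a : ℝ) ≤ N * (1 / 4 - ρ / 2) + 1 := by
    rw [ha]
    push_cast
    linarith [Nat.floor_le hp1]
  have hb1 : (N : ℝ) * (1 / 4 + ρ / 2) ≤ b := Nat.le_ceil _
  have hb2 : (b : ℝ) < N * (1 / 4 + ρ / 2) + 1 :=
    Nat.ceil_lt_add_one (mul_nonneg hNρ.le (by linarith))
  have hset : (range N).filter (fun d : ℕ => |(d : ℝ) / N - 1 / 4| < ρ / 2) = Ico a b := by
    ext d
    rw [mem_filter, mem_range, mem_Ico, abs_lt]
    have e1 : (-(ρ / 2) < (d : ℝ) / N - 1 / 4) ↔ a ≤ d := by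
      rw [ha, Nat.succ_le_iff, Nat.floor_lt hp1]
      constructor
      · intro h3
        have h4 : 1 / 4 - ρ / 2 < (d : ℝ) / N := by linarith
        rw [lt_div_iff₀ hNρ] at h4
        linarith
      · intro h3
        have h4 : 1 / 4 - ρ / 2 < (d : ℝ) / N := by
          rw [lt_div_iff₀ hNρ]
          linarith
        linarith
    have e2 : ((d : ℝ) / N - 1 / 4 < ρ / 2) ↔ d < b := by
      rw [hb, Nat.lt_ceil]
      constructor
      · intro h3
        have h4 : (d : ℝ) / N < 1 / 4 + ρ / 2 := by linarith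
        rw [div_lt_iff₀ hNρ] at h4
        linarith
      · intro h3
        have h4 : (d : ℝ) / N < 1 / 4 + ρ / 2 := by
          rw [div_lt_iff₀ hNρ]
          linarith
        linarith
    rw [e1, e2]
    constructor
    · rintro ⟨-, h3⟩
      exact h3
    · intro h3
      refine ⟨?_, h3⟩
      have h4 : (d : ℝ) < b := by exact_mod_cast h3.2
      have h5 := e2.2 h3.2
      have h6 : (d : ℝ) / N < 1 := by linarith
      rw [div_lt_one hNρ] at h6
      exact_mod_cast h6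
  have hNρ2 : (N : ℝ) * ρ ≤ N * (1 / 16) := mul_le_mul_of_nonneg_left hρ' hNρ.le
  have hab : a ≤ b := by
    have h3 : (a : ℝ) ≤ b := by
      have : (N : ℝ) * (1 / 4 + ρ / 2) = N * (1 / 4 - ρ / 2) + N * ρ := by ring
      linarith
    exact_mod_cast h3
  have hba : (b : ℝ) - a ≤ N := by
    have : (N : ℝ) * (1 / 4 + ρ / 2) = N * (1 / 4 - ρ / 2) + N * ρ := by ring
    linarith
  have hba0 : (0 : ℝ) ≤ (b : ℝ) - a := by
    have : (a : ℝ) ≤ b := by exact_mod_cast hab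
    linarith
  set xa : ℝ := ((a : ℝ) - 1 / 2) / N with hxa
  set xb : ℝ := ((b : ℝ) - 1 / 2) / N with hxb
  have hxa1 : 1 / 4 - ρ / 2 - 1 / (2 * (N : ℝ)) ≤ xa := by
    rw [hxa, le_div_iff₀ hNρ]
    have e : (1 / 4 - ρ / 2 - 1 / (2 * (N : ℝ))) * N = N * (1 / 4 - ρ / 2) - 1 / 2 := by
      field_simp
    rw [e]
    linarith
  have hxa2 : xa ≤ 1 / 4 - ρ / 2 + 1 / (2 * (N : ℝ)) := by
    rw [hxa, div_le_iff₀ hNρ]
    have e : (1 / 4 - ρ / 2 + 1 / (2 * (N : ℝ))) * N = N * (1 / 4 - ρ / 2) + 1 / 2 := by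
      field_simp
    rw [e]
    linarith
  have hxb1 : 1 / 4 + ρ / 2 - 1 / (2 * (N : ℝ)) ≤ xb := by
    rw [hxb, le_div_iff₀ hNρ]
    have e : (1 / 4 + ρ / 2 - 1 / (2 * (N : ℝ))) * N = N * (1 / 4 + ρ / 2) - 1 / 2 := by
      field_simp
    rw [e]
    linarith
  have hxb2 : xb ≤ 1 / 4 + ρ / 2 + 1 / (2 * (N : ℝ)) := by
    rw [hxb, div_le_iff₀ hNρ]
    have e : (1 / 4 + ρ / 2 + 1 / (2 * (N : ℝ))) * N = N * (1 / 4 + ρ / 2) + 1 / 2 := by
      field_simp
    rw [e]
    linarith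
  have hxin : ∀ x : ℝ, xa ≤ x → x ≤ xb → |x - 1 / 4| ≤ 5 * ρ / 8 := by
    intro x h3 h4
    rw [abs_le]
    constructor <;> linarith
  have hxa3 : |xa - 1 / 4| ≤ 5 * ρ / 8 := hxin xa le_rfl (by linarith)
  have hxb3 : |xb - 1 / 4| ≤ 5 * ρ / 8 := hxin xb (by linarith) le_rfl
  -- the vertical sides
  have hvs : ∀ x : ℝ, |x - 1 / 4| ≤ 5 * ρ / 8 → ρ / 8 ≤ |x - δs| → ∀ y : ℝ, |y| ≤ h →
      ‖F ((x : ℂ) + y * Complex.I)‖ ≤ Real.exp CY * Real.exp (-(c / 4 * (ρ / 8) ^ 2) * N) := by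
    intro x hx hxd y hy
    have hy' := hy.trans hh1
    refine (hFn _ (hball x y hx hy')).trans ?_
    rw [← Real.exp_add]
    refine Real.exp_le_exp.2 ?_
    have h3 := vert ρ B hρ Θ hΘ hB him x y hx hy'
    have h4 := conc ρ c Θ δs hΘ hδρ h0 h2 x (by linarith)
    have h5 : 64 * B / ρ ^ 2 * y ^ 2 ≤ 64 * B / ρ ^ 2 * h ^ 2 := by
      refine mul_le_mul_of_nonneg_left ?_ hB0
      rw [← sq_abs y]
      exact pow_le_pow_left₀ (abs_nonneg _) hy 2
    have h6 : (ρ / 8) ^ 2 ≤ (x - δs) ^ 2 := by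
      rw [← sq_abs (x - δs)]
      exact pow_le_pow_left₀ (by positivity) hxd 2
    have h7 : c / 2 * (ρ / 8) ^ 2 ≤ c / 2 * (x - δs) ^ 2 :=
      mul_le_mul_of_nonneg_left h6 (by positivity)
    have h8 : (Θ ((x : ℂ) + y * Complex.I)).re - (Θ δs).re ≤ -(c / 4 * (ρ / 8) ^ 2) := by
      linarith
    have h9 := mul_le_mul_of_nonneg_left h8 hNρ.le
    linarith
  -- the horizontal sides
  have hhs : ∀ x : ℝ, |x - 1 / 4| ≤ 5 * ρ / 8 → ∀ y : ℝ, |y| = h →
      ‖F ((x : ℂ) + y * Complex.I)‖ ≤ Real.exp CY * Real.exp (π * h * N) := by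
    intro x hx y hy
    have hy' : |y| ≤ ρ / 16 := hy.le.trans hh1
    refine (hFn _ (hball x y hx hy')).trans ?_
    rw [← Real.exp_add]
    refine Real.exp_le_exp.2 ?_
    have h3 := vert ρ B hρ Θ hΘ hB him x y hx hy'
    have h4 := conc ρ c Θ δs hΘ hδρ h0 h2 x (by linarith)
    have h5 : 64 * B / ρ ^ 2 * y ^ 2 ≤ π * h := by
      rw [← sq_abs y, hy]
      calc 64 * B / ρ ^ 2 * h ^ 2 = 64 * B / ρ ^ 2 * h * h := by ring
        _ ≤ π * h := mul_le_mul_of_nonneg_right hh2 hh.le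
    have h6 : (0 : ℝ) ≤ c / 2 * (x - δs) ^ 2 := by positivity
    have h8 : (Θ ((x : ℂ) + y * Complex.I)).re - (Θ δs).re ≤ π * h := by linarith
    have h9 := mul_le_mul_of_nonneg_left h8 hNρ.le
    linarith
  have hsi := hSI F N a b h (Real.exp CY * Real.exp (-(c / 4 * (ρ / 8) ^ 2) * N))
    (Real.exp CY * Real.exp (π * h * N)) hNpos hab hN1
    (fun x y hx1 hx2 hy => hFd _ (hball x y (hxin x hx1 hx2) (hy.trans hh1)))
    (fun y hy => ⟨hvs xa hxa3 (by rw [abs_of_nonpos (by linarith)]; linarith) y hy,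
      hvs xb hxb3 (by rw [abs_of_nonneg (by linarith)]; linarith) y hy⟩)
    (fun x hx1 hx2 => by
      refine ⟨hhs x (hxin x hx1 hx2) h (abs_of_pos hh), ?_⟩
      have h3 := hhs x (hxin x hx1 hx2) (-h) (by rw [abs_neg, abs_of_pos hh])
      have e : (x : ℂ) + ((-h : ℝ) : ℂ) * Complex.I = x - h * Complex.I := by
        push_cast
        ring
      rwa [e] at h3)
  have hsi2 : 4 * (Real.exp CY * Real.exp (-(c / 4 * (ρ / 8) ^ 2) * N) +
      ((b : ℝ) - a) * (Real.exp CY * Real.exp (π * h * N)) * Real.exp (-(2 * π * N * h))) ≤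
      4 * (Real.exp CY * (Real.exp (-(c / 4 * (ρ / 8) ^ 2) * N) +
        N * Real.exp (-(π * h) * N))) := by
    have e : ((b : ℝ) - a) * (Real.exp CY * Real.exp (π * h * N)) * Real.exp (-(2 * π * N * h)) =
        ((b : ℝ) - a) * (Real.exp CY * Real.exp (-(π * h) * N)) := by
      rw [mul_assoc, mul_assoc, ← Real.exp_add]
      congr 3
      ring
    rw [e]
    have h3 : ((b : ℝ) - a) * (Real.exp CY * Real.exp (-(π * h) * N)) ≤
        N * (Real.exp CY * Real.exp (-(π * h) * N)) :=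
      mul_le_mul_of_nonneg_right hba (by positivity)
    have e5 : Real.exp CY * (Real.exp (-(c / 4 * (ρ / 8) ^ 2) * N) +
        N * Real.exp (-(π * h) * N)) = Real.exp CY * Real.exp (-(c / 4 * (ρ / 8) ^ 2) * N) +
        N * (Real.exp CY * Real.exp (-(π * h) * N)) := by ring
    rw [e5]
    exact mul_le_mul_of_nonneg_left (by linarith) (by norm_num)
  -- the integral
  have hcont : ∀ u v : ℝ, xa ≤ u → u ≤ xb → xa ≤ v → v ≤ xb →
      IntervalIntegrable (fun x : ℝ => F x) MeasureTheory.volume u v := by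
    intro u v hu1 hu2 hv1 hv2
    refine ContinuousOn.intervalIntegrable ?_
    intro x hx
    have hx' : xa ≤ x ∧ x ≤ xb := by
      rcases Set.mem_uIcc.1 hx with h3 | h3
      · exact ⟨hu1.trans h3.1, h3.2.trans hv2⟩
      · exact ⟨hv1.trans h3.1, h3.2.trans hu2⟩
    have h3 := (hFd _ (hballr x (hxin x hx'.1 hx'.2))).continuousAt
    exact (h3.comp (Complex.continuous_ofReal.continuousAt (x := x))).continuousWithinAt
  have hl1 : xa ≤ δs + -η := by linarith
  have hl2 : δs + η ≤ xb := by linarith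
  have hl3 : δs + -η ≤ δs + η := by linarith
  have hint : (∫ x in xa..xb, F x) = (∫ x in xa..(δs + -η), F x) +
      (∫ x in (δs + -η)..(δs + η), F x) + ∫ x in (δs + η)..xb, F x := by
    rw [intervalIntegral.integral_add_adjacent_intervals
      (hcont _ _ le_rfl (by linarith) hl1 (by linarith))
      (hcont _ _ hl1 (by linarith) (by linarith) hl2),
      intervalIntegral.integral_add_adjacent_intervals
      (hcont _ _ le_rfl (by linarith) (by linarith) hl2)
      (hcont _ _ (by linarith) hl2 (by linarith) le_rfl)]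
  have hmid : (∫ x in (δs + -η)..(δs + η), F x) =
      ∫ x in (-η)..η, Complex.exp (N * (Θ (δs + x) - Θ δs)) * Complex.exp (Y (δs + x)) := by
    rw [← intervalIntegral.integral_comp_add_left (fun x : ℝ => F x) δs]
    refine intervalIntegral.integral_congr fun x hx => ?_
    show F ((δs + x : ℝ) : ℂ) = _
    rw [hF, ← Complex.exp_add]
    push_cast
    rfl
  have hout : ∀ x : ℝ, xa ≤ x → x ≤ xb → η ≤ |x - δs| →
      ‖F x‖ ≤ Real.exp CY * Real.exp (-(c / 2 * η ^ 2) * N) := by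
    intro x hx1 hx2 hxd
    have hx := hxin x hx1 hx2
    refine (hFn _ (hballr x hx)).trans ?_
    rw [← Real.exp_add]
    refine Real.exp_le_exp.2 ?_
    have h4 := conc ρ c Θ δs hΘ hδρ h0 h2 x (by linarith)
    have h6 : η ^ 2 ≤ (x - δs) ^ 2 := by
      rw [← sq_abs (x - δs)]
      exact pow_le_pow_left₀ hη.le hxd 2
    have h7 : c / 2 * η ^ 2 ≤ c / 2 * (x - δs) ^ 2 :=
      mul_le_mul_of_nonneg_left h6 (by positivity)
    have h8 : (Θ x).re - (Θ δs).re ≤ -(c / 2 * η ^ 2) := by linarith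
    have h9 := mul_le_mul_of_nonneg_left h8 hNρ.le
    linarith
  have ho1 : ‖∫ x in xa..(δs + -η), F x‖ ≤
      Real.exp CY * Real.exp (-(c / 2 * η ^ 2) * N) * |δs + -η - xa| := by
    refine intervalIntegral.norm_integral_le_of_norm_le_const fun x hx => ?_
    rw [Set.uIoc_of_le hl1] at hx
    exact hout x hx.1.le (by linarith [hx.2]) (by rw [abs_of_nonpos] <;> linarith [hx.2])
  have ho2 : ‖∫ x in (δs + η)..xb, F x‖ ≤
      Real.exp CY * Real.exp (-(c / 2 * η ^ 2) * N) * |xb - (δs + η)| := by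
    refine intervalIntegral.norm_integral_le_of_norm_le_const fun x hx => ?_
    rw [Set.uIoc_of_le hl2] at hx
    exact hout x (by linarith [hx.1]) hx.2 (by rw [abs_of_nonneg] <;> linarith [hx.1])
  rw [abs_of_nonneg (by linarith)] at ho1 ho2
  have hlen : xb - xa ≤ 1 := by
    rw [hxa, hxb, ← sub_div, div_le_one hNρ]
    linarith
  set Q := Real.exp CY * Real.exp (-(c / 2 * η ^ 2) * N) with hQ
  have hQ0 : 0 ≤ Q := by positivity
  have ho3 : ‖(∫ x in xa..xb, F x) - ∫ x in (δs + -η)..(δs + η), F x‖ ≤ Q := by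
    rw [hint]
    have e : ∀ u v w : ℂ, u + v + w - v = u + w := fun u v w => by ring
    rw [e]
    refine (norm_add_le _ _).trans ((add_le_add ho1 ho2).trans ?_)
    have h3 : Q * (δs + -η - xa) + Q * (xb - (δs + η)) = Q * (xb - xa - 2 * η) := by ring
    rw [h3]
    calc Q * (xb - xa - 2 * η) ≤ Q * 1 := mul_le_mul_of_nonneg_left (by linarith) hQ0
      _ = Q := mul_one Q
  rw [hset, ← hmid]
  have e3 : ∑ d ∈ Ico a b, F ((d : ℂ) / N) - N * ∫ x in (δs + -η)..(δs + η), F x =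
      (∑ d ∈ Ico a b, F ((d : ℂ) / N) - N * ∫ x in xa..xb, F x) +
      N * ((∫ x in xa..xb, F x) - ∫ x in (δs + -η)..(δs + η), F x) := by ring
  have e4 : ‖(N : ℂ) * ((∫ x in xa..xb, F x) - ∫ x in (δs + -η)..(δs + η), F x)‖ ≤ N * Q := by
    rw [norm_mul, Complex.norm_natCast]
    exact mul_le_mul_of_nonneg_left ho3 hNρ.le
  show ‖∑ d ∈ Ico a b, F ((d : ℂ) / N) - N * ∫ x in (δs + -η)..(δs + η), F x‖ ≤ _
  rw [e3]
  exact (norm_add_le _ _).trans (add_le_add (hsi.trans hsi2) e4)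

end Pool.Agent.W613.AX
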